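import Pool.Agent.W544.PG.Key
import Pool.Agent.W637.PG.EG2

/-!
# The Galois Lie algebra of surfaces and an abelian variety: linear algebra
-/

open Matrix Finset Module

namespace Pool.Agent.W547.GAL

open Pool.Agent.W544.PG Pool.Agent.W637.PG

noncomputable section

/-- a root vector of degree two in a block, orthonormal coordinates -/
theorem eg1 {n r : ℕ} (c : Fin n → Fin r) (i : Fin r) (p : ℕ) (x : Matrix (Fin n) (Fin n) ℂ)
    (hx : BD c x) (hsk : xᵀ = -x) (hcube : x * x * x = x)
    (hp : ∑ a with c a = i, (x * x) a a = 2 * (p : ℂ)) (hp2 : 2 ≤ p) :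
    ∃ Z : Matrix (Fin n) (Fin n) ℂ, Z ≠ 0 ∧ Zᵀ = -Z ∧
      (∀ a b, Z a b ≠ 0 → c a = i ∧ c b = i) ∧ x * Z - Z * x = (2 : ℂ) • Z := by
  have h4 : x * x * (x * x) = x * x := by rw [← Matrix.mul_assoc, hcube]
  set E := Ec c i with hE
  have hEx : E * x = x * E := Ec_comm c i x hx
  have hEE : E * E = E := Ec_sq c i
  have hET : Eᵀ = E := by rw [hE]; unfold Ec; rw [Matrix.diagonal_transpose]
  have htr : (x * E).trace = 0 := by
    have h1 : (x * E).trace = -(x * E).trace := by
      calc (x * E).trace = ((x * E)ᵀ).trace := (Matrix.trace_transpose _).symm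
        _ = (E * xᵀ).trace := by rw [Matrix.transpose_mul, hET]
        _ = -(x * E).trace := by
            rw [hsk, Matrix.mul_neg, Matrix.trace_neg, hEx]
    have h2 : (2 : ℂ) * (x * E).trace = 0 := by linear_combination h1
    simpa using h2
  set M := x * x + x with hM
  have hEM : E * M = M * E := by
    rw [hM, Matrix.mul_add, Matrix.add_mul, ← Matrix.mul_assoc, hEx, Matrix.mul_assoc, hEx,
      ← Matrix.mul_assoc]
  have hMM : M * M = (2 : ℂ) • M := by
    rw [hM, Matrix.mul_add, Matrix.add_mul, Matrix.add_mul, h4, hcube, ← Matrix.mul_assoc, hcube,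
      two_smul]
    abel
  have hxM : x * M = M := by
    rw [hM, Matrix.mul_add, ← Matrix.mul_assoc, hcube, add_comm]
  set P := (1 / 2 : ℂ) • (M * E) with hP
  have hPP : P * P = P := by
    rw [hP, smul_mul_smul_comm]
    have h5 : M * E * (M * E) = (2 : ℂ) • (M * E) := by
      calc M * E * (M * E) = M * (E * M) * E := by simp only [Matrix.mul_assoc]
        _ = (M * M) * (E * E) := by rw [hEM]; simp only [Matrix.mul_assoc]
        _ = (2 : ℂ) • (M * E) := by rw [hMM, hEE, smul_mul_assoc]
    rw [h5, smul_smul]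
    norm_num
  have hPt : P.trace = (p : ℂ) := by
    have h6 : (x * x * E).trace = 2 * (p : ℂ) := by rw [trace_Ec]; exact hp
    rw [hP, Matrix.trace_smul, hM, Matrix.add_mul, Matrix.trace_add, htr, h6]
    simp
  have hxP : x * P = P := by
    rw [hP, mul_smul_comm, ← Matrix.mul_assoc, hxM]
  have hEP : E * P = P := by
    rw [hP, mul_smul_comm, ← Matrix.mul_assoc, hEM, Matrix.mul_assoc, hEE]
  obtain ⟨A, B, hAB, hBA⟩ := fac P hPP hPt
  have hPA : P * A = A := by rw [← hAB, Matrix.mul_assoc, hBA, Matrix.mul_one]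
  have hxA : x * A = A := by
    calc x * A = x * (P * A) := by rw [hPA]
      _ = (x * P) * A := by rw [Matrix.mul_assoc]
      _ = A := by rw [hxP, hPA]
  have hEA : E * A = A := by
    calc E * A = E * (P * A) := by rw [hPA]
      _ = (E * P) * A := by rw [Matrix.mul_assoc]
      _ = A := by rw [hEP, hPA]
  set z0 : Fin p := ⟨0, by omega⟩ with hz0
  set z1 : Fin p := ⟨1, by omega⟩ with hz1
  have h01 : z0 ≠ z1 := by
    intro h
    have := congrArg Fin.val h
    simp [hz0, hz1] at this
  set J : Matrix (Fin p) (Fin p) ℂ := Matrix.of fun a b =>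
    if a = z0 ∧ b = z1 then 1 else if a = z1 ∧ b = z0 then -1 else 0 with hJ
  have hJT : Jᵀ = -J := by
    ext a b
    simp only [hJ, Matrix.transpose_apply, Matrix.neg_apply, Matrix.of_apply]
    by_cases ha0 : a = z0
    · have ha1 : ¬ a = z1 := fun h => h01 (ha0.symm.trans h)
      by_cases hb1 : b = z1
      · have hb0 : ¬ b = z0 := fun h => h01 (h.symm.trans hb1)
        simp [ha0, hb1, h01, h01.symm]
      · simp [ha0, hb1, h01]
    · by_cases ha1 : a = z1
      · by_cases hb0 : b = z0
        · simp [ha1, hb0, h01, h01.symm]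
        · simp [ha1, hb0, h01.symm]
      · simp [ha0, ha1]
  have hJ01 : J z0 z1 = 1 := by simp [hJ]
  set Z := A * J * Aᵀ with hZ
  refine ⟨Z, ?_, ?_, ?_, ?_⟩
  · intro h0
    have h7 : B * Z * Bᵀ = J := by
      have h9 : Aᵀ * Bᵀ = 1 := by rw [← Matrix.transpose_mul, hBA, Matrix.transpose_one]
      calc B * Z * Bᵀ = (B * A) * J * (Aᵀ * Bᵀ) := by rw [hZ]; simp only [Matrix.mul_assoc]
        _ = J := by rw [hBA, h9, Matrix.one_mul, Matrix.mul_one]
    rw [h0, Matrix.mul_zero, Matrix.zero_mul] at h7
    rw [← h7] at hJ01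
    simp at hJ01
  · rw [hZ, Matrix.transpose_mul, Matrix.transpose_mul, hJT, Matrix.transpose_transpose,
      Matrix.neg_mul, Matrix.mul_neg, ← Matrix.mul_assoc]
  · have hEZ : E * Z = Z := by
      calc E * Z = (E * A) * J * Aᵀ := by rw [hZ]; simp only [Matrix.mul_assoc]
        _ = Z := by rw [hEA]
    have hZE : Z * E = Z := by
      calc Z * E = A * J * (Aᵀ * Eᵀ) := by rw [hZ, hET]; simp only [Matrix.mul_assoc]
        _ = Z := by rw [← Matrix.transpose_mul, hEA, hZ]
    intro a b hab
    constructor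
    · by_contra hcon
      apply hab
      rw [← hEZ, hE]
      unfold Ec
      rw [Matrix.diagonal_mul, if_neg hcon, zero_mul]
    · by_contra hcon
      apply hab
      rw [← hZE, hE]
      unfold Ec
      rw [Matrix.mul_diagonal, if_neg hcon, mul_zero]
  · have h11 : x * Z = Z := by
      calc x * Z = (x * A) * J * Aᵀ := by rw [hZ]; simp only [Matrix.mul_assoc]
        _ = Z := by rw [hxA]
    have h12 : Z * x = -Z := by
      have hx' : x = -xᵀ := by rw [hsk, neg_neg]
      calc Z * x = -(A * J * (Aᵀ * xᵀ)) := by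
            conv_lhs => rw [hx']
            rw [hZ, Matrix.mul_neg]
            simp only [Matrix.mul_assoc]
        _ = -Z := by rw [← Matrix.transpose_mul, hxA, hZ]
    rw [h11, h12, two_smul]
    abel

/-- triples of an operator on `T`, an operator on the Tate module of an abelian variety, and a
scalar (the action on the Tate twist) -/
abbrev Tri (n w : ℕ) : Type := Matrix (Fin n) (Fin n) ℂ × Matrix (Fin w) (Fin w) ℂ × ℂ

/-- the bracket -/
def br3 {n w : ℕ} (a b : Tri n w) : Tri n w :=
  (a.1 * b.1 - b.1 * a.1, a.2.1 * b.2.1 - b.2.1 * a.2.1, 0)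

/-- **The key lemma**, orthonormal coordinates: a Lie algebra of triples whose projection to `T` is
the sum of the `so(T_i)` and which contains an element `(x, y, 1)`, where `x` is `1`, `0`, `-1` on
pieces of ranks `p_i`, `q_i`, `p_i` of `T_i`, `p_i ≥ 2`, and `y` is a projection, contains the sum
of the `so(T_i)`. -/
theorem keyAbs {n w r : ℕ} (c : Fin n → Fin r) (p q : Fin r → ℕ)
    (x : Matrix (Fin n) (Fin n) ℂ) (hx : BD c x) (hsk : xᵀ = -x) (hcube : x * x * x = x)
    (htr : ∀ i, ∑ a with c a = i, (x * x) a a = 2 * (p i : ℂ))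
    (hrk : ∀ i, (univ.filter fun a => c a = i).card = 2 * p i + q i)
    (hp2 : ∀ i, 2 ≤ p i) (hm : ∀ i, 2 * p i + q i ≠ 4)
    (y : Matrix (Fin w) (Fin w) ℂ) (hy : y * y = y) (M : Submodule ℂ (Tri n w))
    (hlie : ∀ a ∈ M, ∀ b ∈ M, br3 a b ∈ M) (hX : (x, y, 1) ∈ M)
    (hfull : ∀ Z : Matrix (Fin n) (Fin n) ℂ, Zᵀ = -Z → BD c Z → ∃ V u, (Z, V, u) ∈ M)
    (Z : Matrix (Fin n) (Fin n) ℂ) (hZ : Zᵀ = -Z) (hZc : BD c Z) : (Z, 0, 0) ∈ M := by
  have hbr : ∀ Z Z' : Matrix (Fin n) (Fin n) ℂ, Zᵀ = -Z → BD c Z → (Z', 0, 0) ∈ M →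
      (Z * Z' - Z' * Z, 0, 0) ∈ M := by
    intro Z Z' h1 h2 h3
    obtain ⟨V, u, h4⟩ := hfull Z h1 h2
    have h5 := hlie _ h4 _ h3
    unfold br3 at h5
    simpa using h5
  choose e he using fun i => exists_enum c i (hrk i)
  have hblock : ∀ (i : Fin r) (z : Matrix (Fin (2 * p i + q i)) (Fin (2 * p i + q i)) ℂ),
      zᵀ = -z → (sel (e i) * z * (sel (e i))ᵀ, 0, 0) ∈ M := by
    intro i z hz
    let J : Submodule ℂ (Matrix (Fin (2 * p i + q i)) (Fin (2 * p i + q i)) ℂ) :=
      { carrier := {z | zᵀ = -z ∧ (sel (e i) * z * (sel (e i))ᵀ, 0, 0) ∈ M}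
        zero_mem' := by
          refine ⟨by simp, ?_⟩
          rw [Matrix.mul_zero, Matrix.zero_mul]
          exact M.zero_mem
        add_mem' := by
          rintro y z ⟨hy1, hy2⟩ ⟨hz1, hz2⟩
          refine ⟨?_, ?_⟩
          · rw [Matrix.transpose_add, hy1, hz1, neg_add]
          · rw [Matrix.mul_add, Matrix.add_mul]
            have := M.add_mem hy2 hz2
            simpa using this
        smul_mem' := by
          rintro z y ⟨hy1, hy2⟩
          refine ⟨?_, ?_⟩
          · rw [Matrix.transpose_smul, hy1, smul_neg]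
          · rw [Matrix.mul_smul, Matrix.smul_mul]
            have := M.smul_mem z hy2
            simpa using this }
    have hJmem : ∀ y, y ∈ J ↔ (yᵀ = -y ∧ (sel (e i) * y * (sel (e i))ᵀ, 0, 0) ∈ M) :=
      fun y => Iff.rfl
    have hsel : ∀ A : Matrix (Fin (2 * p i + q i)) (Fin (2 * p i + q i)) ℂ, Aᵀ = -A →
        (sel (e i) * A * (sel (e i))ᵀ)ᵀ = -(sel (e i) * A * (sel (e i))ᵀ) := by
      intro A hA
      rw [Matrix.transpose_mul, Matrix.transpose_mul, Matrix.transpose_transpose, hA,
        Matrix.neg_mul, Matrix.mul_neg, ← Matrix.mul_assoc]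
    have h1 : z ∈ J := by
      refine W589.PG.Sim.sim _ (by have := hp2 i; omega) (hm i) J (fun y hy => hy.1) ?_ ?_ z hz
      · intro Z hZ y hy
        rw [hJmem] at hy ⊢
        refine ⟨?_, ?_⟩
        · unfold br
          rw [Matrix.transpose_sub, Matrix.transpose_mul, Matrix.transpose_mul, hZ, hy.1,
            neg_mul_neg, neg_mul_neg]
          abel
        · have h2 := hbr _ _ (hsel Z hZ) (sel_BD (he i) Z) hy.2
          have h3 : ∀ A B : Matrix (Fin (2 * p i + q i)) (Fin (2 * p i + q i)) ℂ,
              sel (e i) * A * (sel (e i))ᵀ * (sel (e i) * B * (sel (e i))ᵀ) =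
              sel (e i) * (A * B) * (sel (e i))ᵀ := by
            intro A B
            calc sel (e i) * A * (sel (e i))ᵀ * (sel (e i) * B * (sel (e i))ᵀ) =
                sel (e i) * A * ((sel (e i))ᵀ * sel (e i)) * B * (sel (e i))ᵀ := by
                  simp only [Matrix.mul_assoc]
              _ = _ := by
                  rw [sel_T_sel _ (he i).inj, Matrix.mul_one]
                  simp only [Matrix.mul_assoc]
          rw [h3, h3, ← Matrix.sub_mul, ← Matrix.mul_sub] at h2
          exact h2
      · obtain ⟨Z0, hZ0, hZs, hZb, hZx⟩ := eg1 c i (p i) x hx hsk hcube (htr i) (hp2 i)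
        have hZc : BD c Z0 := by
          intro a a' haa'
          by_contra h
          obtain ⟨h1, h2⟩ := hZb a a' h
          exact haa' (by rw [h1, h2])
        obtain ⟨V, u, hV⟩ := hfull Z0 hZs hZc
        have h2 := hlie _ hX _ hV
        have h3 := hlie _ hX _ h2
        have h4 := hlie _ hX _ h3
        have h5 := M.sub_mem h4 h2
        have e1 : ∀ N : Matrix (Fin w) (Fin w) ℂ, y * (y * N) = y * N := by
          intro N
          rw [← Matrix.mul_assoc, hy]
        have h6 : br3 (x, y, 1) (br3 (x, y, 1) (br3 (x, y, 1) (Z0, V, u))) -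
            br3 (x, y, 1) (Z0, V, u) = ((6 : ℂ) • Z0, 0, 0) := by
          unfold br3
          simp only
          refine Prod.ext ?_ (Prod.ext ?_ ?_)
          · change x * (x * (x * Z0 - Z0 * x) - (x * Z0 - Z0 * x) * x) -
              (x * (x * Z0 - Z0 * x) - (x * Z0 - Z0 * x) * x) * x - (x * Z0 - Z0 * x) = _
            have a1 : x * ((2 : ℂ) • Z0) - ((2 : ℂ) • Z0) * x = (4 : ℂ) • Z0 := by
              rw [Matrix.mul_smul, Matrix.smul_mul, ← smul_sub, hZx, smul_smul]
              norm_num
            have a2 : x * ((4 : ℂ) • Z0) - ((4 : ℂ) • Z0) * x = (8 : ℂ) • Z0 := by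
              rw [Matrix.mul_smul, Matrix.smul_mul, ← smul_sub, hZx, smul_smul]
              norm_num
            rw [hZx, a1, a2]
            change (8 : ℂ) • Z0 - (2 : ℂ) • Z0 = (6 : ℂ) • Z0
            module
          · change y * (y * (y * V - V * y) - (y * V - V * y) * y) -
              (y * (y * V - V * y) - (y * V - V * y) * y) * y - (y * V - V * y) = 0
            simp only [Matrix.mul_sub, Matrix.sub_mul, Matrix.mul_assoc, e1, hy]
            abel
          · change (0 : ℂ) - 0 = 0
            rw [sub_zero]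
        rw [h6] at h5
        have h8 := M.smul_mem (1 / 6 : ℂ) h5
        have h8' : (Z0, (0 : Matrix (Fin w) (Fin w) ℂ), (0 : ℂ)) ∈ M := by
          have h9 : (1 / 6 : ℂ) • (((6 : ℂ) • Z0, 0, 0) : Tri n w) = (Z0, 0, 0) := by
            refine Prod.ext ?_ (Prod.ext ?_ ?_)
            · change (1 / 6 : ℂ) • (6 : ℂ) • Z0 = Z0
              rw [smul_smul]
              norm_num
            · change (1 / 6 : ℂ) • (0 : Matrix (Fin w) (Fin w) ℂ) = 0
              rw [smul_zero]
            · change (1 / 6 : ℂ) • (0 : ℂ) = 0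
              rw [smul_zero]
          rwa [h9] at h8
        intro hbot
        have hmem : Z0.submatrix (e i) (e i) ∈ J := by
          rw [hJmem]
          refine ⟨?_, ?_⟩
          · ext a b
            have := congrFun (congrFun hZs (e i a)) (e i b)
            exact this
          · have h9 : sel (e i) * Z0.submatrix (e i) (e i) * (sel (e i))ᵀ = Z0 := by
              rw [← (he i).mul_sel hZc, Matrix.mul_assoc]
              ext a a'
              have h11 : Z0 a a' = (Z0 * (∑ i, sel (e i) * (sel (e i))ᵀ)) a a' := by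
                rw [sel_sum (fun i => he i), Matrix.mul_one]
              rw [h11, Matrix.mul_sum, Matrix.sum_apply, Finset.sum_eq_single i]
              · intro j _ hj
                rw [Matrix.mul_apply]
                refine Finset.sum_eq_zero fun l _ => ?_
                by_cases hl : c l = i
                · have h12 : (sel (e j) * (sel (e j))ᵀ) l a' = 0 := by
                    rw [Matrix.mul_apply]
                    refine Finset.sum_eq_zero fun l' _ => ?_
                    rw [sel, Matrix.of_apply, if_neg, zero_mul]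
                    intro h
                    exact hj (by rw [← hl, ← h, (he j).col])
                  rw [h12, mul_zero]
                · have h12 : Z0 a l = 0 := by
                    by_contra h
                    exact hl (hZb a l h).2
                  rw [h12, zero_mul]
              · simp
            rw [h9]
            exact h8'
        rw [hbot, Submodule.mem_bot] at hmem
        apply hZ0
        ext a a'
        by_contra h
        obtain ⟨h1, h2⟩ := hZb a a' h
        obtain ⟨j, rfl⟩ := (he i).surj a h1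
        obtain ⟨j', rfl⟩ := (he i).surj a' h2
        exact h (congrFun (congrFun hmem j) j')
    exact h1.2
  rw [sel_dec (fun i => he i) hZc]
  have h1 : ((∑ i, sel (e i) * Z.submatrix (e i) (e i) * (sel (e i))ᵀ,
      (0 : Matrix (Fin w) (Fin w) ℂ), (0 : ℂ)) : Tri n w) =
      ∑ i, (sel (e i) * Z.submatrix (e i) (e i) * (sel (e i))ᵀ,
        (0 : Matrix (Fin w) (Fin w) ℂ), (0 : ℂ)) := by
    refine Prod.ext ?_ (Prod.ext ?_ ?_)
    · rw [Prod.fst_sum]
    · rw [Prod.snd_sum, Prod.fst_sum]
      simp
    · rw [Prod.snd_sum, Prod.snd_sum]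
      simp
  rw [h1]
  refine Submodule.sum_mem _ fun i _ => ?_
  apply hblock
  ext a b
  exact congrFun (congrFun hZ (e i a)) (e i b)

end

end Pool.Agent.W547.GAL
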