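import Pool.Agent.W547.GAL.Main
import Pool.Agent.W547.VHC.Main

/-!
# The Mumford-Tate conjecture for the product of surfaces and an abelian variety
-/

open Matrix Finset Module

namespace Pool.Agent.W547.GAL

open Pool.Agent.W544.PG Pool.Agent.W544.FF Pool.Agent.W547.AHX

noncomputable section

variable {K : Type} [Field K] {Γ : Type} [Group Γ] [TopologicalSpace Γ] {n r w s m l k e : ℕ}
  {T : GR K Γ n} {c : Fin n → Fin r} {p q : Fin r → ℕ}

/-! ### Tate classes form a space -/

theorem IsTateX.zero (G : GA T w) :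
    G.IsTateX e (0 : (Fin m → Fin s ⊕ Fin n) → (Fin l → Fin w) → K) := by
  refine ⟨⊤, isOpen_univ, fun g _ => ?_⟩
  funext J L
  simp [pullX]

theorem IsTateX.add (G : GA T w) {f g : (Fin m → Fin s ⊕ Fin n) → (Fin l → Fin w) → K}
    (hf : G.IsTateX e f) (hg : G.IsTateX e g) : G.IsTateX e (f + g) := by
  obtain ⟨U, hU, h1⟩ := hf
  obtain ⟨V, hV, h2⟩ := hg
  refine ⟨U ⊓ V, hU.inter hV, fun x hx => ?_⟩
  funext J L
  have h3 := congrFun (congrFun (h1 x hx.1) J) L
  have h4 := congrFun (congrFun (h2 x hx.2) J) L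
  have h5 := pullX_add (T.ρS s x) (G.ρ x) f g J L
  simp only [Pi.add_apply]
  refine h5.trans ?_
  rw [h3, h4]
  ring

theorem IsTateX.smul (G : GA T w) (z : K) {f : (Fin m → Fin s ⊕ Fin n) → (Fin l → Fin w) → K}
    (hf : G.IsTateX e f) : G.IsTateX e (z • f) := by
  obtain ⟨U, hU, h1⟩ := hf
  refine ⟨U, hU, fun g hg => ?_⟩
  funext J L
  have h3 := congrFun (congrFun (h1 g hg) J) L
  have h5 := pullX_smul (T.ρS s g) (G.ρ g) z f J L
  refine h5.trans ?_
  rw [h3]
  simp only [Pi.smul_apply, smul_eq_mul]
  ring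

theorem IsTateX.tensor (G : GA T w) {α : (Fin m → Fin s ⊕ Fin n) → K}
    {β : (Fin l → Fin w) → K} (hα : IsTate (T.ρS s) α) (hβ : G.IsTateA e β) :
    G.IsTateX e (fun J L => α J * β L) := by
  obtain ⟨V, hV, hβ⟩ := hβ
  obtain ⟨U, hU, hα⟩ := hα
  refine ⟨U ⊓ V, hU.inter hV, fun g hg => ?_⟩
  funext J L
  rw [pullX_tensor, hα g hg.1, hβ g hg.2]
  ring

/-! ### Rational classes -/

section rat

theorem castQ (ι : K →+* ℂ) (z : ℚ) : ι (z : K) = (z : ℂ) := map_ratCast ι z

theorem QmapC {B : HS n} (hQ : T.Q = B.Q.map fun z : ℚ => (z : K)) : T.Q.map T.ι = mC B.Q := by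
  rw [hQ]
  ext a b
  simp [mC]

/-- classes in `algE` with coefficients in `K` are combinations of rational ones -/
theorem desc {B : HS n} (hQ : T.Q = B.Q.map fun z : ℚ => (z : K)) (d : Fin s → Fin r)
    (a : Fin m → Fin r) (D : Finset (Fin r)) (α : (Fin m → Fin s ⊕ Fin n) → K)
    (hα : α ∈ algE T.Q c d a D) :
    α ∈ Submodule.span K {γ : (Fin m → Fin s ⊕ Fin n) → K | ∃ α' ∈ algD B.Q c d a,
      γ = fun J => (α' J : K)} := by
  have h1 := algD_map T.ι T.Q d a α (algE_le _ _ _ _ _ hα)
  refine W216.TP.mk K T.ι _ _ α ?_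
  have h2 : T.Q.map T.ι = B.Q.map (Rat.castHom ℂ) := by
    rw [QmapC hQ]
    rfl
  rw [h2] at h1
  refine Submodule.span_le.2 ?_ h1
  rintro u ⟨σ, ν, S, g, k1, k2, k3, k4, k5, k6, k7⟩
  have h3 := W125.FF.HDK.genD_mem (Rat.castHom ℂ) B.Q c d a σ k1 k2 ν k3 S g k4 k5 k6
  have h4 : W125.FF.HDK.genD (B.Q.map (Rat.castHom ℂ)) c d a σ ν S g = u := by
    funext J
    rw [k7]
    rfl
  rw [h4] at h3
  refine Submodule.span_mono ?_ h3
  rintro v ⟨v', hv', rfl⟩
  refine ⟨fun J => (v' J : K), ⟨v', Submodule.subset_span hv', rfl⟩, ?_⟩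
  funext J
  exact (castQ T.ι (v' J)).symm

/-- rational classes in `algD` are Tate classes -/
theorem tate_cast {B : HS n} (hQ : T.Q = B.Q.map fun z : ℚ => (z : K)) (hT : T.Big c p q)
    (d : Fin s → Fin r) (a : Fin m → Fin r) (α : (Fin m → Fin s ⊕ Fin n) → ℚ)
    (hα : α ∈ algD B.Q c d a) : IsTate (T.ρS s) (fun J => (α J : K)) := by
  refine (W160.TP.TSL.tsl K Γ n s m T _).2 fun y hy => ?_
  funext J
  apply T.ι.injective
  rw [ι_actK, fb_map, Pi.zero_apply, map_zero]
  obtain ⟨h1, h2⟩ := (LC_iff hT (y.map T.ι)).1 (LC_span hy)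
  have h3 : (fun J => T.ι ((α J : ℚ) : K)) = fun J => ((α J : ℚ) : ℂ) :=
    funext fun J => castQ T.ι (α J)
  rw [h3]
  rw [QmapC hQ] at h1
  have hdet : (mC B.Q).det ≠ 0 := by
    rw [det_mC]
    exact_mod_cast W74.PG.det_ne B
  have hs : (mC B.Q)ᵀ = mC B.Q := by rw [mC_T, B.symm]
  have hbQ : BD c (mC B.Q) := by
    rw [← QmapC hQ]
    exact hT.bQ.map (map_zero _)
  have h4 := W863.FF.cnd ℂ n r s m c d a (mC B.Q) (y.map T.ι) hbQ h2 hs h1
    (W839.FF.trz ℂ n r c (mC B.Q) (y.map T.ι) hbQ h2 hs hdet h1) (fun J => ((α J : ℚ) : ℂ))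
    (algD_map (Rat.castHom ℂ) B.Q d a α hα)
  exact congrFun h4 J

end rat

/-- Combinations, with coefficients in `K`, of rational classes `t'` on the product of the surfaces
`S_(a 1), ..., S_(a m)` and `A`, of degree `l` in `A`, which are Hodge classes. -/
def hodgeX (K : Type) [Field K] (B : HS n) (W : HW w) (c : Fin n → Fin r) (d : Fin s → Fin r)
    (a : Fin m → Fin r) (l : ℕ) : Submodule K ((Fin m → Fin s ⊕ Fin n) → (Fin l → Fin w) → K) :=
  Submodule.span K {γ | ∃ t' : (Fin m → Fin s ⊕ Fin n) → (Fin l → Fin w) → ℚ,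
    IsHodgeX B W t' ∧ (∀ J L, t' J L ≠ 0 → ∀ j, Sum.elim d c (J j) = a j) ∧
    (∀ J, IsAlt (t' J)) ∧ γ = fun J L => (t' J L : K)}

/-- Combinations, with coefficients in `K`, of rational alternating `l`-linear forms which are
Hodge classes on `A`. -/
def hodgeA (K : Type) [Field K] (W : HW w) (l : ℕ) : Submodule K ((Fin l → Fin w) → K) :=
  Submodule.span K {γ | ∃ β' : (Fin l → Fin w) → ℚ, W.IsHodge β' ∧ IsAlt β' ∧
    γ = fun L => (β' L : K)}

/-- **The Mumford-Tate conjecture for the product of surfaces and an abelian variety.** -/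
theorem mt (B : HS n) (hQ : T.Q = B.Q.map fun z : ℚ => (z : K)) (hB : B.Big c p q)
    (hT : T.Big c p q) (hp2 : ∀ i, 2 ≤ p i) (W : HW w) (G : GA T w)
    (hA : ∀ β : (Fin l → Fin w) → K, (G.IsTateA e β ∧ IsAltK β) ↔ β ∈ hodgeA K W l)
    (d : Fin s → Fin r) (a : Fin m → Fin r)
    (t : (Fin m → Fin s ⊕ Fin n) → (Fin l → Fin w) → K)
    (hta : ∀ J L, t J L ≠ 0 → ∀ j, Sum.elim d c (J j) = a j) (halt : ∀ J, IsAltK (t J)) :
    G.IsTateX e t ↔ t ∈ hodgeX K B W c d a l := by
  have hK : CharZero K := (RingHom.charZero_iff T.ι.injective).2 inferInstance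
  constructor
  · intro ht
    have h1 := (main G hT hp2 d a id (fun j j' h => by rw [id, id] at h; rw [h]) univ t hta
      (fun π hπ J => by
        have h2 : ∀ j, π j = j := hπ
        congr 1
        funext j
        rw [h2 j])
      (fun J L _ i hi => absurd (Finset.mem_univ i) hi) halt).1 ht
    unfold GA.tateX at h1
    refine Submodule.span_le.2 ?_ h1
    rintro _ ⟨α, hα, β, hβ, hβa, rfl⟩
    have h2 := desc (T := T) hQ d a univ α hα
    have h3 := (hA β).1 ⟨hβ, hβa⟩
    unfold hodgeA at h3
    clear hα hβ hβa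
    change (fun J L => α J * β L) ∈ hodgeX K B W c d a l
    induction h2 using Submodule.span_induction with
    | mem α h =>
      obtain ⟨α', hα', rfl⟩ := h
      induction h3 using Submodule.span_induction with
      | mem β h =>
        obtain ⟨β', hβ', hβa', rfl⟩ := h
        refine Submodule.subset_span ⟨fun J L => α' J * β' L, ?_, ?_, ?_, ?_⟩
        · exact (W374.PG.cnv n r w s m l B W c d a hB.bQ hB.bx).2 α' β'
            (hodge_algD W863.FF.cnd W839.FF.trz hB d a α' hα') hβ'
        · intro J L hJ j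
          have hJ' : α' J ≠ 0 := fun h => hJ (by
            change α' J * β' L = 0
            rw [h, zero_mul])
          have h5 := algD_le _ _ _ _ hα'
          unfold algE at h5
          clear hJ hα'
          revert hJ'
          induction h5 using Submodule.span_induction with
          | mem α h =>
            obtain ⟨σ, ν, S, g, hok, _, rfl⟩ := h
            intro hJ'
            exact (W654.FF.Gsp.gsp ℚ n r s m c d a B.Q σ ν S g hB.bQ hok J hJ').1 j
          | zero => intro h; exact absurd rfl h
          | add x y _ _ hx hy =>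
            intro h
            by_cases h6 : x J = 0
            · exact hy (fun h7 => h (by rw [Pi.add_apply, h6, h7, add_zero]))
            · exact hx h6
          | smul z x _ hx =>
            intro h
            exact hx (fun h6 => h (by rw [Pi.smul_apply, h6, smul_zero]))
        · intro J π L
          have h5 := hβa' π L
          change α' J * β' (L ∘ π) = _ * (α' J * β' L)
          rw [h5]
          ring
        · funext J L
          push_cast
          ring
      | zero =>
        have h5 : (fun (J : Fin m → Fin s ⊕ Fin n) (L : Fin l → Fin w) =>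
            (α' J : K) * (0 : (Fin l → Fin w) → K) L) = 0 := by
          funext J L
          simp
        rw [h5]
        exact Submodule.zero_mem _
      | add x y _ _ hx hy =>
        have h5 : (fun (J : Fin m → Fin s ⊕ Fin n) (L : Fin l → Fin w) =>
            (α' J : K) * (x + y) L) = (fun J L => (α' J : K) * x L) +
              fun J L => (α' J : K) * y L := by
          funext J L
          simp [mul_add]
        rw [h5]
        exact Submodule.add_mem _ hx hy
      | smul z x _ hx =>
        have h5 : (fun (J : Fin m → Fin s ⊕ Fin n) (L : Fin l → Fin w) =>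
            (α' J : K) * (z • x) L) = z • fun J L => (α' J : K) * x L := by
          funext J L
          simp only [Pi.smul_apply, smul_eq_mul]
          ring
        rw [h5]
        exact Submodule.smul_mem _ z hx
    | zero =>
      have h5 : (fun (J : Fin m → Fin s ⊕ Fin n) (L : Fin l → Fin w) =>
          (0 : (Fin m → Fin s ⊕ Fin n) → K) J * β L) = 0 := by
        funext J L
        simp
      rw [h5]
      exact Submodule.zero_mem _
    | add x y _ _ hx hy =>
      have h5 : (fun (J : Fin m → Fin s ⊕ Fin n) (L : Fin l → Fin w) => (x + y) J * β L) =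
          (fun J L => x J * β L) + fun J L => y J * β L := by
        funext J L
        simp [add_mul]
      rw [h5]
      exact Submodule.add_mem _ hx hy
    | smul z x _ hx =>
      have h5 : (fun (J : Fin m → Fin s ⊕ Fin n) (L : Fin l → Fin w) => (z • x) J * β L) =
          z • fun J L => x J * β L := by
        funext J L
        simp [mul_assoc]
      rw [h5]
      exact Submodule.smul_mem _ z hx
  · intro ht
    clear hta halt
    unfold hodgeX at ht
    induction ht using Submodule.span_induction with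
    | mem t h =>
      obtain ⟨t', h1, h2, h3, rfl⟩ := h
      have h4 := (hcAF hB W (Or.inr hp2) d a id univ (fun j j' h => by rw [id, id] at h; rw [h])
        t' h2 (fun π hπ J => by
          have h2 : ∀ j, π j = j := hπ
          congr 1
          funext j
          rw [h2 j]) (fun J L _ i hi => absurd (Finset.mem_univ i) hi) h3).1 h1
      clear h1 h2 h3
      unfold algXE at h4
      induction h4 using Submodule.span_induction with
      | mem f h =>
        obtain ⟨α, hα, β, hβ, hβa, rfl⟩ := h
        have h5 : (fun (J : Fin m → Fin s ⊕ Fin n) (L : Fin l → Fin w) =>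
            ((α J * β L : ℚ) : K)) = fun J L => (α J : K) * (β L : K) := by
          funext J L
          push_cast
          ring
        rw [h5]
        refine IsTateX.tensor G (tate_cast hQ hT d a α (algE_le _ _ _ _ _ hα)) ?_
        exact ((hA (fun L => (β L : K))).2 (Submodule.subset_span ⟨β, hβ, hβa, rfl⟩)).1
      | zero =>
        have h5 : (fun (J : Fin m → Fin s ⊕ Fin n) (L : Fin l → Fin w) =>
            (((0 : (Fin m → Fin s ⊕ Fin n) → (Fin l → Fin w) → ℚ) J L : ℚ) : K)) = 0 := by
          funext J L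
          simp
        rw [h5]
        exact IsTateX.zero G
      | add x y _ _ hx hy =>
        have h5 : (fun (J : Fin m → Fin s ⊕ Fin n) (L : Fin l → Fin w) =>
            (((x + y) J L : ℚ) : K)) = (fun J L => (x J L : K)) + fun J L => (y J L : K) := by
          funext J L
          simp
        rw [h5]
        exact IsTateX.add G hx hy
      | smul z x _ hx =>
        have h5 : (fun (J : Fin m → Fin s ⊕ Fin n) (L : Fin l → Fin w) =>
            (((z • x) J L : ℚ) : K)) = (z : K) • fun J L => (x J L : K) := by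
          funext J L
          simp
        rw [h5]
        exact IsTateX.smul G _ hx
    | zero => exact IsTateX.zero G
    | add x y _ _ hx hy => exact IsTateX.add G hx hy
    | smul z x _ hx => exact IsTateX.smul G z hx

end

end Pool.Agent.W547.GAL
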