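import Pool.Agent.W547.GAL.Key
import Pool.Agent.W547.AHX.Full
import Pool.Agent.W544.FF.Final

/-!
# Tate classes on the product of surfaces and an abelian variety
-/

open Matrix Finset Module

namespace Pool.Agent.W547.GAL

open Pool.Agent.W544.PG Pool.Agent.W544.FF Pool.Agent.W547.AHX

noncomputable section

section defs

variable {K : Type} [Field K] {Γ : Type} [Group Γ] [TopologicalSpace Γ] {n : ℕ}

/-- An abelian variety `A` together with the surfaces of `T`: the representation `ρ` of `Γ` on the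
Tate module `V_l(A)`, the cyclotomic character `χ`, the Lie algebra `M` of the image of `Γ` in the
automorphisms of `T ⊕ V_l(A) ⊕ ℚ_l(1)`, and the Sen operator `(x, y, 1)`. -/
structure GA (T : GR K Γ n) (w : ℕ) where
  /-- the representation on the Tate module -/
  ρ : Γ →* Matrix (Fin w) (Fin w) K
  /-- the cyclotomic character -/
  χ : Γ →* K
  /-- the Lie algebra of the image in the automorphisms of `T ⊕ V_l(A) ⊕ ℚ_l(1)` -/
  M : Submodule K (Matrix (Fin n) (Fin n) K × Matrix (Fin w) (Fin w) K × K)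
  lie : ∀ a ∈ M, ∀ b ∈ M, (a.1 * b.1 - b.1 * a.1, a.2.1 * b.2.1 - b.2.1 * a.2.1, (0 : K)) ∈ M
  proj : ∀ z ∈ T.L, ∃ a ∈ M, a.1 = z
  tate : ∀ (s m l e : ℕ) (t : (Fin m → Fin s ⊕ Fin n) → (Fin l → Fin w) → K),
    (∃ U : Subgroup Γ, IsOpen (U : Set Γ) ∧ ∀ g ∈ U,
      pullX (T.ρS s g) (ρ g) t = fun J L => χ g ^ e * t J L) ↔
    ∀ a ∈ M, ∀ J L, actK (fromBlocks 0 0 0 a.1) (fun J => t J L) J + actK a.2.1 (t J) L =
      (e : K) * a.2.2 * t J L
  /-- the Sen operator on the Tate module -/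
  y : Matrix (Fin w) (Fin w) ℂ
  sen : ((T.x, y, 1) : Matrix (Fin n) (Fin n) ℂ × Matrix (Fin w) (Fin w) ℂ × ℂ) ∈
    Submodule.span ℂ {Y | ∃ a ∈ M, Y = (a.1.map T.ι, a.2.1.map T.ι, T.ι a.2.2)}
  sq : y * y = y

/-- A class on the product of surfaces and `A` (a form with `m` variables in `ℚ_l^s ⊕ T` and `l`
variables in the Tate module of `A`), twisted by `ℚ_l(e)`, is a Tate class: it is invariant under
an open subgroup. -/
def GA.IsTateX {T : GR K Γ n} {w s m l : ℕ} (G : GA T w) (e : ℕ)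
    (t : (Fin m → Fin s ⊕ Fin n) → (Fin l → Fin w) → K) : Prop :=
  ∃ U : Subgroup Γ, IsOpen (U : Set Γ) ∧ ∀ g ∈ U,
    pullX (T.ρS s g) (G.ρ g) t = fun J L => G.χ g ^ e * t J L

/-- A class in `H^l(A)(e)`, an `l`-linear form `β` on the Tate module of `A`, is a Tate class. -/
def GA.IsTateA {T : GR K Γ n} {w l : ℕ} (G : GA T w) (e : ℕ) (β : (Fin l → Fin w) → K) : Prop :=
  ∃ U : Subgroup Γ, IsOpen (U : Set Γ) ∧ ∀ g ∈ U, pull (G.ρ g) β = fun L => G.χ g ^ e * β L

/-- alternating forms -/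
def IsAltK {w l : ℕ} (β : (Fin l → Fin w) → K) : Prop :=
  ∀ (π : Equiv.Perm (Fin l)) (L : Fin l → Fin w),
    β (L ∘ π) = ((Equiv.Perm.sign π : ℤ) : K) * β L

/-- the complexification of `M` -/
def GA.MC {T : GR K Γ n} {w : ℕ} (G : GA T w) : Submodule ℂ (Tri n w) :=
  Submodule.span ℂ {Y | ∃ a ∈ G.M, Y = (a.1.map T.ι, a.2.1.map T.ι, T.ι a.2.2)}

/-- Sums of products of classes in `algE` (combinations of products of algebraic classes, of
transcendental parts of diagonals and of determinants of the `T_i`, `i ∈ D`) on the product of the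
surfaces and of Tate classes in `H^l(A)(e)` (alternating forms). -/
def GA.tateX {T : GR K Γ n} {w r s m : ℕ} (G : GA T w) (c : Fin n → Fin r) (d : Fin s → Fin r)
    (a : Fin m → Fin r) (D : Finset (Fin r)) (l e : ℕ) :
    Submodule K ((Fin m → Fin s ⊕ Fin n) → (Fin l → Fin w) → K) :=
  Submodule.span K {f | ∃ α ∈ algE T.Q c d a D, ∃ β : (Fin l → Fin w) → K, G.IsTateA e β ∧
    IsAltK β ∧ f = fun J L => α J * β L}

end defs

variable {K : Type} [Field K] {Γ : Type} [Group Γ] [TopologicalSpace Γ] {n r w s m l k e : ℕ}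
  {T : GR K Γ n} {c : Fin n → Fin r} {p q : Fin r → ℕ}

theorem br3_add_left (a b z : Tri n w) : br3 (a + b) z = br3 a z + br3 b z := by
  unfold br3
  refine Prod.ext ?_ (Prod.ext ?_ ?_)
  · change (a.1 + b.1) * z.1 - z.1 * (a.1 + b.1) =
      (a.1 * z.1 - z.1 * a.1) + (b.1 * z.1 - z.1 * b.1)
    rw [Matrix.add_mul, Matrix.mul_add]
    abel
  · change (a.2.1 + b.2.1) * z.2.1 - z.2.1 * (a.2.1 + b.2.1) =
      (a.2.1 * z.2.1 - z.2.1 * a.2.1) + (b.2.1 * z.2.1 - z.2.1 * b.2.1)
    rw [Matrix.add_mul, Matrix.mul_add]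
    abel
  · change (0 : ℂ) = 0 + 0
    rw [add_zero]

theorem br3_neg (a b : Tri n w) : br3 a b = -br3 b a := by
  unfold br3
  refine Prod.ext ?_ (Prod.ext ?_ ?_)
  · change a.1 * b.1 - b.1 * a.1 = -(b.1 * a.1 - a.1 * b.1)
    abel
  · change a.2.1 * b.2.1 - b.2.1 * a.2.1 = -(b.2.1 * a.2.1 - a.2.1 * b.2.1)
    abel
  · change (0 : ℂ) = -0
    rw [neg_zero]

theorem br3_smul_left (x : ℂ) (a z : Tri n w) : br3 (x • a) z = x • br3 a z := by
  unfold br3
  refine Prod.ext ?_ (Prod.ext ?_ ?_)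
  · change (x • a.1) * z.1 - z.1 * (x • a.1) = x • (a.1 * z.1 - z.1 * a.1)
    rw [Matrix.smul_mul, Matrix.mul_smul, smul_sub]
  · change (x • a.2.1) * z.2.1 - z.2.1 * (x • a.2.1) = x • (a.2.1 * z.2.1 - z.2.1 * a.2.1)
    rw [Matrix.smul_mul, Matrix.mul_smul, smul_sub]
  · change (0 : ℂ) = x • (0 : ℂ)
    rw [smul_zero]

theorem br3_zero_left (z : Tri n w) : br3 0 z = 0 := by
  have h := br3_smul_left (n := n) (w := w) 0 0 z
  rwa [zero_smul, zero_smul] at h

theorem MC_lie (G : GA T w) : ∀ a ∈ G.MC, ∀ b ∈ G.MC, br3 a b ∈ G.MC := by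
  have h1 : ∀ a ∈ G.MC, ∀ b ∈ G.M, br3 a (b.1.map T.ι, b.2.1.map T.ι, T.ι b.2.2) ∈ G.MC := by
    intro a ha b hb
    unfold GA.MC at ha
    induction ha using Submodule.span_induction with
    | mem a h =>
      obtain ⟨z, hz, rfl⟩ := h
      refine Submodule.subset_span ⟨_, G.lie z hz b hb, ?_⟩
      unfold br3
      refine Prod.ext ?_ (Prod.ext ?_ ?_)
      · change z.1.map T.ι * b.1.map T.ι - b.1.map T.ι * z.1.map T.ι =
          (z.1 * b.1 - b.1 * z.1).map T.ι
        rw [← map_mulR, ← map_mulR]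
        ext i j
        rw [Matrix.sub_apply, Matrix.map_apply, Matrix.map_apply, Matrix.map_apply,
          Matrix.sub_apply, map_sub]
      · change z.2.1.map T.ι * b.2.1.map T.ι - b.2.1.map T.ι * z.2.1.map T.ι =
          (z.2.1 * b.2.1 - b.2.1 * z.2.1).map T.ι
        rw [← map_mulR, ← map_mulR]
        ext i j
        rw [Matrix.sub_apply, Matrix.map_apply, Matrix.map_apply, Matrix.map_apply,
          Matrix.sub_apply, map_sub]
      · change (0 : ℂ) = T.ι 0
        rw [map_zero]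
    | zero =>
      rw [br3_zero_left]
      exact G.MC.zero_mem
    | add a a' _ _ h h' =>
      rw [br3_add_left]
      exact G.MC.add_mem h h'
    | smul x a _ h =>
      rw [br3_smul_left]
      exact G.MC.smul_mem x h
  intro a ha b hb
  unfold GA.MC at hb
  induction hb using Submodule.span_induction with
  | mem b h =>
    obtain ⟨z, hz, rfl⟩ := h
    exact h1 a ha z hz
  | zero =>
    rw [br3_neg, br3_zero_left, neg_zero]
    exact G.MC.zero_mem
  | add b b' _ _ h h' =>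
    rw [br3_neg, br3_add_left, neg_add, ← br3_neg, ← br3_neg]
    exact G.MC.add_mem h h'
  | smul x b _ h =>
    rw [br3_neg, br3_smul_left, ← smul_neg, ← br3_neg]
    exact G.MC.smul_mem x h

/-- every element of the Lie algebra of `T` lifts -/
theorem MC_lift (G : GA T w) : ∀ Z ∈ T.LC, ∃ V u, ((Z, V, u) : Tri n w) ∈ G.MC := by
  intro Z hZ
  unfold GR.LC at hZ
  induction hZ using Submodule.span_induction with
  | mem Z h =>
    obtain ⟨z, hz, rfl⟩ := h
    obtain ⟨a, ha, rfl⟩ := G.proj z hz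
    exact ⟨a.2.1.map T.ι, T.ι a.2.2, Submodule.subset_span ⟨a, ha, rfl⟩⟩
  | zero => exact ⟨0, 0, G.MC.zero_mem⟩
  | add a b _ _ ha hb =>
    obtain ⟨V, u, h1⟩ := ha
    obtain ⟨V', u', h2⟩ := hb
    exact ⟨V + V', u + u', G.MC.add_mem h1 h2⟩
  | smul x a _ ha =>
    obtain ⟨V, u, h1⟩ := ha
    exact ⟨x • V, x • u, G.MC.smul_mem x h1⟩

/-- conjugation of the first component -/
def cT (g g' : Matrix (Fin n) (Fin n) ℂ) : Tri n w →ₗ[ℂ] Tri n w where
  toFun z := (g * z.1 * g', z.2.1, z.2.2)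
  map_add' a b := by
    refine Prod.ext ?_ rfl
    change g * (a.1 + b.1) * g' = g * a.1 * g' + g * b.1 * g'
    rw [Matrix.mul_add, Matrix.add_mul]
  map_smul' x a := by
    refine Prod.ext ?_ rfl
    change g * (x • a.1) * g' = x • (g * a.1 * g')
    rw [Matrix.mul_smul, Matrix.smul_mul]

/-- **The key lemma**: the joint Lie algebra contains the sum of the `so(T_i)`. -/
theorem key (G : GA T w) (hT : T.Big c p q) (hp2 : ∀ i, 2 ≤ p i)
    (Z : Matrix (Fin n) (Fin n) ℂ) (hZ : Zᵀ * T.Q.map T.ι + T.Q.map T.ι * Z = 0)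
    (hZc : BD c Z) : ((Z, 0, 0) : Tri n w) ∈ G.MC := by
  have hxLC : T.x ∈ T.LC := T.sen
  obtain ⟨hxs, hxb⟩ := (LC_iff hT T.x).1 hxLC
  obtain ⟨u, hub, huQ, -, -⟩ := id hT.red
  have e1 : u⁻¹ * u = 1 := by
    have h1 : (uᵀ * T.Q.map T.ι) * u = 1 := huQ
    have h2 : u⁻¹ = uᵀ * T.Q.map T.ι := Matrix.inv_eq_left_inv h1
    rw [h2]
    exact h1
  have e2 : u * u⁻¹ = 1 := mul_eq_one_comm.1 e1
  have hui : BD c u⁻¹ := W918.PG.bd_inv hub (by
    have h1 := congrArg Matrix.det e2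
    rw [Matrix.det_mul, Matrix.det_one] at h1
    exact IsUnit.of_mul_eq_one _ h1)
  have fwd : ∀ Z : Matrix (Fin n) (Fin n) ℂ, Zᵀ * T.Q.map T.ι + T.Q.map T.ι * Z = 0 →
      (u⁻¹ * Z * u)ᵀ = -(u⁻¹ * Z * u) := by
    intro Z hZ
    have h1 := cc_skew e2 _ Z hZ
    rw [huQ, Matrix.mul_one, Matrix.one_mul] at h1
    exact eq_neg_of_add_eq_zero_left h1
  have bwd : ∀ Z : Matrix (Fin n) (Fin n) ℂ, Zᵀ = -Z →
      (u * Z * u⁻¹)ᵀ * T.Q.map T.ι + T.Q.map T.ι * (u * Z * u⁻¹) = 0 := by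
    intro Z hZ
    have t1 : (u⁻¹)ᵀ * uᵀ = 1 := by rw [← Matrix.transpose_mul, e2, Matrix.transpose_one]
    have t3 : uᵀ * T.Q.map T.ι = u⁻¹ := by
      have h1 : (uᵀ * T.Q.map T.ι) * u = 1 := huQ
      exact (Matrix.inv_eq_left_inv h1).symm
    have t4 : T.Q.map T.ι * u = (u⁻¹)ᵀ := by
      calc T.Q.map T.ι * u = (u⁻¹)ᵀ * uᵀ * (T.Q.map T.ι * u) := by rw [t1, Matrix.one_mul]
        _ = (u⁻¹)ᵀ * (uᵀ * T.Q.map T.ι * u) := by simp only [Matrix.mul_assoc]
        _ = (u⁻¹)ᵀ := by rw [huQ, Matrix.mul_one]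
    rw [Matrix.transpose_mul, Matrix.transpose_mul, hZ]
    have h1 : (u⁻¹)ᵀ * (-Z * uᵀ) * T.Q.map T.ι = -((u⁻¹)ᵀ * Z * (uᵀ * T.Q.map T.ι)) := by
      simp only [Matrix.mul_assoc, Matrix.neg_mul, Matrix.mul_neg]
    have h2 : T.Q.map T.ι * (u * Z * u⁻¹) = (T.Q.map T.ι * u) * Z * u⁻¹ := by
      simp only [Matrix.mul_assoc]
    rw [h1, h2, t3, t4, neg_add_cancel]
  have mem : ∀ z : Tri n w, z ∈ G.MC.comap (cT u u⁻¹) ↔
      ((u * z.1 * u⁻¹, z.2.1, z.2.2) : Tri n w) ∈ G.MC := fun z => Iff.rfl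
  have key1 := keyAbs c p q (u⁻¹ * T.x * u) ((hui.mul hxb).mul hub) (fwd _ hxs)
    (by rw [cc_mul' e2, cc_mul' e2, T.cube])
    (fun i => by rw [cc_mul' e2, block_trace hub e2]; exact hT.tr i) hT.rk hp2
    (fun i => by
      rcases hT.num i with ⟨h, _⟩ | ⟨_, h⟩
      · have := hp2 i
        omega
      · have hlt : 2 * p i < q i := by
          by_contra h'
          rw [Nat.sub_eq_zero_of_le (not_lt.1 h'), zero_mul] at h
          omega
        have := hp2 i
        omega) G.y G.sq (G.MC.comap (cT u u⁻¹)) ?_ ?_ ?_ (u⁻¹ * Z * u) (fwd Z hZ)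
    ((hui.mul hZc).mul hub)
  · rw [mem] at key1
    simp only at key1
    rwa [cc_back e2] at key1
  · intro a ha b hb
    rw [mem] at ha hb ⊢
    have h1 := MC_lie G _ ha _ hb
    unfold br3 at h1 ⊢
    simp only at h1 ⊢
    rw [cc_mul e1, cc_mul e1, ← Matrix.sub_mul, ← Matrix.mul_sub] at h1
    exact h1
  · rw [mem]
    simp only
    rw [cc_back e2]
    exact G.sen
  · intro Z' hZ' hZc'
    obtain ⟨V, v, h1⟩ := MC_lift G (u * Z' * u⁻¹)
      ((LC_iff hT _).2 ⟨bwd Z' hZ', (hub.mul hZc').mul hui⟩)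
    exact ⟨V, v, h1⟩

theorem ι_actK {κ : Type} [Fintype κ] [DecidableEq κ] (ι : K →+* ℂ) (y : Matrix κ κ K)
    (t : (Fin m → κ) → K) (J : Fin m → κ) :
    ι (actK y t J) = act (y.map ι) (fun J => ι (t J)) J := by
  unfold actK act
  rw [map_sum]
  refine Finset.sum_congr rfl fun j _ => ?_
  rw [map_sum]
  refine Finset.sum_congr rfl fun l _ => ?_
  rw [map_mul]
  rfl

theorem fb_map (ι : K →+* ℂ) (y : Matrix (Fin n) (Fin n) K) :
    (fromBlocks 0 0 0 y : Matrix (Fin s ⊕ Fin n) (Fin s ⊕ Fin n) K).map ι =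
      fromBlocks 0 0 0 (y.map ι) := by
  ext a b
  rcases a with a | a <;> rcases b with b | b <;> simp

/-- the action of the complexified Lie algebra on a Tate class -/
theorem MC_act (G : GA T w) (t : (Fin m → Fin s ⊕ Fin n) → (Fin l → Fin w) → K)
    (ht : G.IsTateX e t) : ∀ a ∈ G.MC, ∀ J L,
    act (fromBlocks 0 0 0 a.1) (fun J => T.ι (t J L)) J + act a.2.1 (fun L => T.ι (t J L)) L =
      (e : ℂ) * a.2.2 * T.ι (t J L) := by
  have h0 := (G.tate s m l e t).1 ht
  intro a ha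
  unfold GA.MC at ha
  induction ha using Submodule.span_induction with
  | mem a h =>
    obtain ⟨z, hz, rfl⟩ := h
    intro J L
    have h1 := congrArg T.ι (h0 z hz J L)
    rw [map_add, ι_actK, ι_actK, fb_map, map_mul, map_mul, map_natCast] at h1
    exact h1
  | zero =>
    intro J L
    change act (fromBlocks 0 0 0 0) (fun J => T.ι (t J L)) J +
      act 0 (fun L => T.ι (t J L)) L = (e : ℂ) * 0 * T.ι (t J L)
    rw [Matrix.fromBlocks_zero]
    simp [act]
  | add a b _ _ ha hb =>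
    intro J L
    have h1 := ha J L
    have h2 := hb J L
    have h3 : (fromBlocks 0 0 0 (a + b).1 : Matrix (Fin s ⊕ Fin n) (Fin s ⊕ Fin n) ℂ) =
        fromBlocks 0 0 0 a.1 + fromBlocks 0 0 0 b.1 := by
      rw [Matrix.fromBlocks_add]
      simp
    have h4 : ∀ {κ : Type} [Fintype κ] [DecidableEq κ] {m : ℕ} (A B : Matrix κ κ ℂ)
        (f : (Fin m → κ) → ℂ) (J : Fin m → κ), act (A + B) f J = act A f J + act B f J := by
      intro κ _ _ m A B f J
      simp only [act, Matrix.add_apply, add_mul, Finset.sum_add_distrib]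
    rw [h3, h4]
    change _ + _ + act (a.2.1 + b.2.1) _ L = (e : ℂ) * (a.2.2 + b.2.2) * _
    rw [h4]
    linear_combination h1 + h2
  | smul x a _ ha =>
    intro J L
    have h1 := ha J L
    have h3 : (fromBlocks 0 0 0 (x • a).1 : Matrix (Fin s ⊕ Fin n) (Fin s ⊕ Fin n) ℂ) =
        x • fromBlocks 0 0 0 a.1 := by
      rw [Matrix.fromBlocks_smul]
      simp
    have h4 : ∀ {κ : Type} [Fintype κ] [DecidableEq κ] {m : ℕ} (A : Matrix κ κ ℂ)
        (f : (Fin m → κ) → ℂ) (J : Fin m → κ), act (x • A) f J = x * act A f J := by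
      intro κ _ _ m A f J
      simp only [act, Matrix.smul_apply, smul_eq_mul, mul_assoc, ← Finset.mul_sum]
    rw [h3, h4]
    change _ + act (x • a.2.1) _ L = (e : ℂ) * (x * a.2.2) * _
    rw [h4]
    linear_combination x * h1

/-- the classes in `algE` are Tate classes -/
theorem tate_algE (hT : T.Big c p q) (d : Fin s → Fin r) (a : Fin m → Fin r)
    (D : Finset (Fin r)) (t : (Fin m → Fin s ⊕ Fin n) → K) (ht : t ∈ algE T.Q c d a D) :
    IsTate (T.ρS s) t := by
  have : CharZero K := (RingHom.charZero_iff T.ι.injective).2 inferInstance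
  have hL := W723.TP.tbd K Γ n r T c hT.bQ hT.bρ hT.red.det
  refine (W160.TP.TSL.tsl K Γ n s m T t).2 fun y hy => ?_
  exact W863.FF.cnd K n r s m c d a T.Q y hT.bQ (hL y hy).1 T.symm (hL y hy).2
    (W839.FF.trz K n r c T.Q y hT.bQ (hL y hy).1 T.symm hT.red.det (hL y hy).2) t
    (algE_le _ _ _ _ _ ht)

/-- separation of variables over any field -/
theorem tenK (X Y : Type) [Fintype X] [Fintype Y] (U : Submodule K (X → K))
    (B : Submodule K (Y → K)) (t : X → Y → K) (hU : ∀ y, (fun x => t x y) ∈ U)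
    (hB : ∀ x, t x ∈ B) :
    t ∈ Submodule.span K {f : X → Y → K | ∃ α ∈ U, ∃ β ∈ B, f = fun x y => α x * β y} := by
  classical
  obtain ⟨p, hp⟩ := LinearMap.exists_leftInverse_of_injective U.subtype
    (LinearMap.ker_eq_bot.2 U.injective_subtype)
  let b := Module.finBasis K U
  let f : Fin (Module.finrank K U) → (X → K) →ₗ[K] K := fun j => (b.coord j).comp p
  have hβ : ∀ j, (fun y => f j (fun x => t x y)) ∈ B := by
    intro j
    have h1 : (fun y => f j (fun x => t x y)) = ∑ x, f j (Pi.single x 1) • t x := by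
      funext y
      have h2 : (fun x => t x y) = ∑ x, t x y • (Pi.single x (1 : K) : X → K) := by
        funext x'
        rw [Finset.sum_apply]
        simp [Pi.single_apply]
      rw [h2, map_sum, Finset.sum_apply]
      refine Finset.sum_congr rfl fun x _ => ?_
      rw [map_smul, smul_eq_mul, Pi.smul_apply, smul_eq_mul, mul_comm]
    rw [h1]
    exact Submodule.sum_mem _ fun x _ => Submodule.smul_mem _ _ (hB x)
  have h1 : t = ∑ j, fun x y => (b j : X → K) x * f j (fun x => t x y) := by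
    funext x y
    rw [Finset.sum_apply, Finset.sum_apply]
    have h2 : p (fun x => t x y) = ⟨fun x => t x y, hU y⟩ := by
      have h3 := LinearMap.congr_fun hp ⟨fun x => t x y, hU y⟩
      exact h3
    have h3 := b.sum_repr ⟨fun x => t x y, hU y⟩
    have h4 := congrArg (fun v : U => (v : X → K) x) h3
    simp only [Submodule.coe_sum, Submodule.coe_smul, Finset.sum_apply, Pi.smul_apply,
      smul_eq_mul] at h4
    rw [← h4]
    refine Finset.sum_congr rfl fun j _ => ?_
    change _ = (b j : X → K) x * b.coord j (p fun x => t x y)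
    rw [h2, mul_comm]
    rfl
  rw [h1]
  refine Submodule.sum_mem _ fun j _ => Submodule.subset_span ⟨b j, (b j).2, _, hβ j, rfl⟩

/-- **Tate classes on the product of symmetric powers of surfaces and an abelian variety.** -/
theorem main (G : GA T w) (hT : T.Big c p q) (hp2 : ∀ i, 2 ≤ p i) (d : Fin s → Fin r)
    (a : Fin m → Fin r) (f : Fin m → Fin k) (hf : ∀ j j', f j = f j' → a j = a j')
    (D : Finset (Fin r)) (t : (Fin m → Fin s ⊕ Fin n) → (Fin l → Fin w) → K)
    (hta : ∀ J L, t J L ≠ 0 → ∀ j, Sum.elim d c (J j) = a j)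
    (hsym : ∀ π : Equiv.Perm (Fin m), (∀ j, f (π j) = f j) →
      ∀ J, t (fun j => J (π j)) = t J)
    (htr : ∀ J L, t J L ≠ 0 → ∀ i, i ∉ D →
      (univ.filter fun y : Fin k => ∃ j b, f j = y ∧ J j = Sum.inr b ∧ c b = i).card <
        2 * p i + q i) (halt : ∀ J, IsAltK (t J)) :
    G.IsTateX e t ↔ t ∈ G.tateX c d a D l e := by
  have : CharZero K := (RingHom.charZero_iff T.ι.injective).2 inferInstance
  constructor
  · intro ht
    have h0 := MC_act G t ht
    have hU : ∀ L, (fun J => t J L) ∈ algE T.Q c d a D := by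
      intro L
      obtain ⟨u, hub, huQ, -⟩ := id hT.red
      have h1 : (fun J => t J L) ∈ algD T.Q c d a := by
        refine hdkF K T.ι n r s m c d a T.Q u hT.bQ hub huQ _ (fun Z hZ hZc => ?_)
          (fun J hJ => hta J L hJ)
        have h2 := h0 _ (key G hT hp2 Z hZ hZc)
        funext J
        have h3 := h2 J L
        simp only at h3
        have h4 : act (0 : Matrix (Fin w) (Fin w) ℂ) (fun L => T.ι (t J L)) L = 0 := by
          simp [act]
        rw [h4, add_zero, mul_zero, zero_mul] at h3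
        exact h3
      exact gsyF K n r s m k c d a f T.Q D hT.bQ T.symm hf _ (algD_le _ _ _ _ h1)
        (fun π hπ J => congrFun (hsym π hπ J) L)
        (fun J hJ i hi => by
          rw [hT.rk i]
          exact htr J L hJ i hi)
    obtain ⟨U₀, hU₀, hg₀⟩ := ht
    have hI : ∀ L : Fin l → Fin w, IsTate (T.ρS s) (fun J => t J L) := fun L =>
      tate_algE hT d a D _ (hU L)
    choose U₁ hU₁ hg₁ using hI
    obtain ⟨B, hB⟩ : ∃ B : Submodule K ((Fin l → Fin w) → K),
        ∀ β, β ∈ B ↔ G.IsTateA e β ∧ IsAltK β := by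
      refine ⟨⟨⟨⟨{β | G.IsTateA e β ∧ IsAltK β}, ?_⟩, ?_⟩, ?_⟩, fun β => Iff.rfl⟩
      · rintro β γ ⟨⟨U, hU, hβ⟩, h2⟩ ⟨⟨V, hV, hγ⟩, h4⟩
        refine ⟨⟨U ⊓ V, hU.inter hV, fun g hg => ?_⟩, fun π L => ?_⟩
        · have h5 := hβ g hg.1
          have h6 := hγ g hg.2
          funext L
          have h7 := congrFun h5 L
          have h8 := congrFun h6 L
          unfold pull at h7 h8 ⊢
          simp only [Pi.add_apply, mul_add, Finset.sum_add_distrib]
          rw [h7, h8]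
        · rw [Pi.add_apply, Pi.add_apply, h2, h4, mul_add]
      · refine ⟨⟨⊤, isOpen_univ, fun g _ => ?_⟩, fun π L => ?_⟩
        · funext L
          simp [pull]
        · simp
      · rintro x β ⟨⟨U, hU, hβ⟩, h2⟩
        refine ⟨⟨U, hU, fun g hg => ?_⟩, fun π L => ?_⟩
        · have h5 := hβ g hg
          funext L
          have h7 := congrFun h5 L
          unfold pull at h7 ⊢
          simp only [Pi.smul_apply, smul_eq_mul]
          have h8 : ∀ N : Fin l → Fin w, (∏ j, G.ρ g (N j) (L j)) * (x * β N) =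
              x * ((∏ j, G.ρ g (N j) (L j)) * β N) := fun N => by ring
          rw [Finset.sum_congr rfl fun N _ => h8 N, ← Finset.mul_sum, h7]
          ring
        · rw [Pi.smul_apply, Pi.smul_apply, smul_eq_mul, smul_eq_mul, h2]
          ring
    have h1 := tenK (K := K) _ _ (algE T.Q c d a D) B t hU (fun J => by
      rw [hB]
      refine ⟨⟨U₀ ⊓ ⨅ L, U₁ L, ?_, fun g hg => ?_⟩, halt J⟩
      · have h2 : ((U₀ ⊓ ⨅ L, U₁ L : Subgroup Γ) : Set Γ) = (U₀ : Set Γ) ∩ ⋂ L, (U₁ L : Set Γ) := by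
          rw [Subgroup.coe_inf, Subgroup.coe_iInf]
        rw [h2]
        exact hU₀.inter (isOpen_iInter_of_finite hU₁)
      · have h3 := congrFun (hg₀ g hg.1) J
        funext L
        have h4 := congrFun h3 L
        rw [pullX_eq, pull_comm] at h4
        rw [← h4]
        congr 1
        funext N
        have h5 : g ∈ U₁ N := (Subgroup.mem_iInf.1 hg.2) N
        exact (congrFun (hg₁ N g h5) J).symm)
    refine Submodule.span_mono ?_ h1
    rintro g ⟨α, hα, β, hβ, rfl⟩
    rw [hB] at hβ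
    exact ⟨α, hα, β, hβ.1, hβ.2, rfl⟩
  · intro ht
    clear hta hsym htr halt
    unfold GA.tateX at ht
    induction ht using Submodule.span_induction with
    | mem g h =>
      obtain ⟨α, hα, β, ⟨V, hV, hβ⟩, _, rfl⟩ := h
      obtain ⟨U, hU, hα'⟩ := tate_algE hT d a D α hα
      refine ⟨U ⊓ V, hU.inter hV, fun g hg => ?_⟩
      funext J L
      rw [pullX_tensor, hα' g hg.1, hβ g hg.2]
      ring
    | zero =>
      refine ⟨⊤, isOpen_univ, fun g _ => ?_⟩
      funext J L
      simp [pullX]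
    | add f g _ _ hf hg =>
      obtain ⟨U, hU, h1⟩ := hf
      obtain ⟨V, hV, h2⟩ := hg
      refine ⟨U ⊓ V, hU.inter hV, fun g hg => ?_⟩
      funext J L
      have h3 := congrFun (congrFun (h1 g hg.1) J) L
      have h4 := congrFun (congrFun (h2 g hg.2) J) L
      have h5 := pullX_add (T.ρS s g) (G.ρ g) f ‹_› J L
      simp only [Pi.add_apply]
      refine h5.trans ?_
      rw [h3, h4]
      ring
    | smul x f _ hf =>
      obtain ⟨U, hU, h1⟩ := hf
      refine ⟨U, hU, fun g hg => ?_⟩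
      funext J L
      have h3 := congrFun (congrFun (h1 g hg) J) L
      have h5 := pullX_smul (T.ρS s g) (G.ρ g) x f J L
      refine h5.trans ?_
      rw [h3]
      simp only [Pi.smul_apply, smul_eq_mul]
      ring

end

end Pool.Agent.W547.GAL
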